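import Pool.Agent.H521.G.Maier3

open MeasureTheory Set Filter Topology
open scoped ENNReal NNReal ComplexConjugate

namespace Pool.Agent.H204.SI

open Pool.Agent.H521 Pool.Agent.H521.G

/-- The chain of consecutive intervals `(y, y + y ^ a]`. -/
noncomputable def ch (a x : ℝ) : ℕ → ℝ
  | 0 => x
  | i + 1 => ch a x i + ch a x i ^ a

theorem ch_ge {a x : ℝ} (hx : 1 ≤ x) (i : ℕ) : x ≤ ch a x i := by
  induction i with
  | zero => exact le_rfl
  | succ i ih =>
    rw [ch]
    have : 0 ≤ ch a x i ^ a := Real.rpow_nonneg (by linarith) _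
    linarith

theorem ch_add {a x : ℝ} (ha : 0 ≤ a) (hx : 1 ≤ x) (i : ℕ) : x + i ≤ ch a x i := by
  induction i with
  | zero => simp [ch]
  | succ i ih =>
    rw [ch]
    have h1 : 1 ≤ ch a x i := hx.trans (ch_ge hx i)
    have : 1 ≤ ch a x i ^ a := Real.one_le_rpow h1 ha
    push_cast
    linarith

theorem cnt_nonneg {p : ℕ → ℝ} (hpt : Tendsto p atTop atTop) {x h : ℝ} (hh : 0 ≤ h) :
    0 ≤ cnt p x h := by
  unfold cnt
  have : (countPr p x : ℝ) ≤ countPr p (x + h) := by
    exact_mod_cast countPr_mono hpt (by linarith)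
  linarith

/-- The chain reaches every point. -/
theorem ch_reach {a x y : ℝ} (ha : 0 ≤ a) (hx : 1 ≤ x) (hy : x ≤ y) :
    ∃ m, ch a x m ≤ y ∧ y < ch a x (m + 1) := by
  have hex : ∃ m : ℕ, y < ch a x m := by
    obtain ⟨m, hm⟩ := exists_nat_gt (y - x)
    exact ⟨m, by have := ch_add ha hx m; linarith⟩
  classical
  have hpos : Nat.find hex ≠ 0 := by
    intro h
    have h1 := Nat.find_spec hex
    rw [h] at h1
    simp only [ch] at h1
    linarith
  refine ⟨Nat.find hex - 1, not_lt.1 (Nat.find_min hex (by omega)), ?_⟩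
  have e : Nat.find hex - 1 + 1 = Nat.find hex := by omega
  rw [e]
  exact Nat.find_spec hex

theorem ch_mono {a x : ℝ} (hx : 1 ≤ x) : Monotone (ch a x) := monotone_nat_of_le_succ fun i => by
  rw [ch]
  have : 0 ≤ ch a x i ^ a := Real.rpow_nonneg (by linarith [ch_ge (a := a) hx i]) _
  linarith

/-- Uniform lower bounds for longer intervals. -/
theorem low_unif {p : ℕ → ℝ} (hpt : Tendsto p atTop atTop) {a l x H : ℝ} (ha : 0 ≤ a) (ha1 : a ≤ 1)
    (hl : 0 ≤ l) (hx : 2 ≤ x)
    (hev : ∀ y, x ≤ y → l * (y ^ a / Real.log y) ≤ cnt p y (y ^ a)) (hH0 : 0 ≤ H) (hH : H ≤ x) :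
    l * ((H - (2 * x) ^ a) / Real.log (2 * x)) ≤ cnt p x H := by
  obtain ⟨m, hm1, hm2⟩ := ch_reach (a := a) ha (by linarith : (1 : ℝ) ≤ x)
    (by linarith : x ≤ x + H)
  have hx1 : (1 : ℝ) ≤ x := by linarith
  have hlog2 : 0 < Real.log (2 * x) := Real.log_pos (by linarith)
  have key : ∀ i ≤ m, l * ((ch a x i - x) / Real.log (2 * x)) ≤
      (countPr p (ch a x i) : ℝ) - countPr p x := by
    intro i
    induction i with
    | zero => intro _; simp [ch]
    | succ i ih =>
      intro hi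
      have h1 := ih (by omega)
      have h2 := hev _ (ch_ge (a := a) hx1 i)
      have h3 : ch a x i ≤ 2 * x := by
        have := ch_mono (a := a) hx1 (by omega : i ≤ m)
        linarith
      have hge := ch_ge (a := a) hx1 i
      have hli : 0 < Real.log (ch a x i) := Real.log_pos (by linarith)
      have h4 : ch a x i ^ a / Real.log (2 * x) ≤ ch a x i ^ a / Real.log (ch a x i) :=
        div_le_div_of_nonneg_left (Real.rpow_nonneg (by linarith) _) hli
          (Real.log_le_log (by linarith) h3)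
      have h5 : l * (ch a x i ^ a / Real.log (2 * x)) ≤ cnt p (ch a x i) (ch a x i ^ a) :=
        (mul_le_mul_of_nonneg_left h4 hl).trans h2
      unfold cnt at h5
      rw [ch]
      have e : l * ((ch a x i + ch a x i ^ a - x) / Real.log (2 * x)) =
          l * ((ch a x i - x) / Real.log (2 * x)) + l * (ch a x i ^ a / Real.log (2 * x)) := by
        ring
      rw [e]
      linarith
  have h1 := key m le_rfl
  have h2 : x + H - (2 * x) ^ a ≤ ch a x m := by
    rw [ch] at hm2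
    have : ch a x m ^ a ≤ (2 * x) ^ a :=
      Real.rpow_le_rpow (by linarith [ch_ge (a := a) hx1 m]) (by linarith) ha
    linarith
  have h3 : (countPr p (ch a x m) : ℝ) ≤ countPr p (x + H) := by
    exact_mod_cast countPr_mono hpt hm1
  unfold cnt
  have h4 : l * ((H - (2 * x) ^ a) / Real.log (2 * x)) ≤
      l * ((ch a x m - x) / Real.log (2 * x)) := by
    apply mul_le_mul_of_nonneg_left _ hl
    apply div_le_div_of_nonneg_right _ hlog2.le
    linarith
  linarith

/-- Uniform upper bounds for longer intervals. -/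
theorem up_unif {p : ℕ → ℝ} (hpt : Tendsto p atTop atTop) {a u x H : ℝ} (ha : 0 ≤ a) (ha1 : a ≤ 1)
    (hu : 0 ≤ u) (hx : 2 ≤ x)
    (hev : ∀ y, x ≤ y → cnt p y (y ^ a) ≤ u * (y ^ a / Real.log y)) (hH0 : 0 ≤ H) (hH : H ≤ x) :
    cnt p x H ≤ u * ((H + (2 * x) ^ a) / Real.log x) := by
  obtain ⟨m, hm1, hm2⟩ := ch_reach (a := a) ha (by linarith : (1 : ℝ) ≤ x)
    (by linarith : x ≤ x + H)
  have hx1 : (1 : ℝ) ≤ x := by linarith
  have hlog : 0 < Real.log x := Real.log_pos (by linarith)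
  have key : ∀ i, (countPr p (ch a x i) : ℝ) - countPr p x ≤
      u * ((ch a x i - x) / Real.log x) := by
    intro i
    induction i with
    | zero => simp [ch]
    | succ i ih =>
      have hge := ch_ge (a := a) hx1 i
      have h2 := hev _ hge
      have h4 : ch a x i ^ a / Real.log (ch a x i) ≤ ch a x i ^ a / Real.log x :=
        div_le_div_of_nonneg_left (Real.rpow_nonneg (by linarith) _) hlog
          (Real.log_le_log (by linarith) hge)
      have h5 : cnt p (ch a x i) (ch a x i ^ a) ≤ u * (ch a x i ^ a / Real.log x) :=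
        h2.trans (mul_le_mul_of_nonneg_left h4 hu)
      unfold cnt at h5
      rw [ch]
      have e : u * ((ch a x i + ch a x i ^ a - x) / Real.log x) =
          u * ((ch a x i - x) / Real.log x) + u * (ch a x i ^ a / Real.log x) := by
        ring
      rw [e]
      linarith
  have h1 := key (m + 1)
  have h2 : ch a x (m + 1) - x ≤ H + (2 * x) ^ a := by
    rw [ch]
    have : ch a x m ^ a ≤ (2 * x) ^ a :=
      Real.rpow_le_rpow (by linarith [ch_ge (a := a) hx1 m]) (by linarith) ha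
    linarith
  have h3 : (countPr p (x + H) : ℝ) ≤ countPr p (ch a x (m + 1)) := by
    exact_mod_cast countPr_mono hpt hm2.le
  unfold cnt
  have h4 : u * ((ch a x (m + 1) - x) / Real.log x) ≤ u * ((H + (2 * x) ^ a) / Real.log x) := by
    apply mul_le_mul_of_nonneg_left _ hu
    apply div_le_div_of_nonneg_right h2 hlog.le
  linarith

/-- The ratio of the number of primes in `(x, x + x ^ a]` and the expected number. -/
noncomputable def pR (p : ℕ → ℝ) (a x : ℝ) : ℝ≥0∞ :=
  ENNReal.ofReal (((countPr p (x + x ^ a) : ℝ) - countPr p x) / (x ^ a / Real.log x))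

theorem T_pos {a x : ℝ} (hx : 1 < x) : 0 < x ^ a / Real.log x :=
  div_pos (Real.rpow_pos_of_pos (by linarith) _) (Real.log_pos hx)

theorem ev_low {p : ℕ → ℝ} {a : ℝ} {r : ℝ≥0} (h : (r : ℝ≥0∞) < liminf (pR p a) atTop) :
    ∀ᶠ x in atTop, (r : ℝ) * (x ^ a / Real.log x) ≤ cnt p x (x ^ a) := by
  filter_upwards [eventually_lt_of_lt_liminf h, eventually_gt_atTop 1] with x hx hx1
  have hl := T_pos (a := a) hx1
  have h1 : (r : ℝ) < cnt p x (x ^ a) / (x ^ a / Real.log x) := by
    have h2 : ENNReal.ofReal (r : ℝ) < pR p a x := by rwa [ENNReal.ofReal_coe_nnreal]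
    unfold pR at h2
    exact (ENNReal.ofReal_lt_ofReal_iff_of_nonneg (NNReal.coe_nonneg r)).1 h2
  rw [lt_div_iff₀ hl] at h1
  exact h1.le

theorem ev_up {p : ℕ → ℝ} {a : ℝ} {r : ℝ≥0} (h : limsup (pR p a) atTop < (r : ℝ≥0∞)) :
    ∀ᶠ x in atTop, cnt p x (x ^ a) ≤ (r : ℝ) * (x ^ a / Real.log x) := by
  filter_upwards [eventually_lt_of_limsup_lt h, eventually_gt_atTop 1] with x hx hx1
  have hl := T_pos (a := a) hx1
  have h1 : cnt p x (x ^ a) / (x ^ a / Real.log x) ≤ (r : ℝ) := by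
    have h2 : pR p a x ≤ ENNReal.ofReal (r : ℝ) := by
      rw [ENNReal.ofReal_coe_nnreal]; exact hx.le
    unfold pR at h2
    exact (ENNReal.ofReal_le_ofReal_iff (NNReal.coe_nonneg r)).1 h2
  rwa [div_le_iff₀ hl] at h1

theorem liminf_ge {p : ℕ → ℝ} {a r : ℝ} (h : ∀ ε : ℝ, 0 < ε → ∀ᶠ x in atTop,
    (r - ε) * (x ^ a / Real.log x) ≤ cnt p x (x ^ a)) :
    ENNReal.ofReal r ≤ liminf (pR p a) atTop := by
  apply ENNReal.le_of_forall_pos_le_add
  intro ε hε _
  have h1 : ∀ᶠ x in atTop, ENNReal.ofReal (r - ε) ≤ pR p a x := by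
    filter_upwards [h ε (by exact_mod_cast hε), eventually_gt_atTop 1] with x hx hx1
    have hl := T_pos (a := a) hx1
    unfold pR
    apply ENNReal.ofReal_le_ofReal
    rw [le_div_iff₀ hl]
    exact hx
  have h2 : ENNReal.ofReal (r - ε) ≤ liminf (pR p a) atTop := le_liminf_of_le (by isBoundedDefault) h1
  calc ENNReal.ofReal r = ENNReal.ofReal ((r - ε) + ε) := by ring_nf
    _ ≤ ENNReal.ofReal (r - ε) + ENNReal.ofReal ε := ENNReal.ofReal_add_le
    _ ≤ liminf (pR p a) atTop + ε := by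
        rw [ENNReal.ofReal_coe_nnreal]
        exact add_le_add_left h2 _

theorem limsup_le {p : ℕ → ℝ} {a r : ℝ} (hr : 0 ≤ r) (h : ∀ ε : ℝ, 0 < ε → ∀ᶠ x in atTop,
    cnt p x (x ^ a) ≤ (r + ε) * (x ^ a / Real.log x)) :
    limsup (pR p a) atTop ≤ ENNReal.ofReal r := by
  apply ENNReal.le_of_forall_pos_le_add
  intro ε hε _
  have h1 : ∀ᶠ x in atTop, pR p a x ≤ ENNReal.ofReal (r + ε) := by
    filter_upwards [h ε (by exact_mod_cast hε), eventually_gt_atTop 1] with x hx hx1
    have hl := T_pos (a := a) hx1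
    unfold pR
    apply ENNReal.ofReal_le_ofReal
    rw [div_le_iff₀ hl]
    exact hx
  have h2 : limsup (pR p a) atTop ≤ ENNReal.ofReal (r + ε) := limsup_le_of_le (by isBoundedDefault) h1
  refine h2.trans ?_
  rw [ENNReal.ofReal_add hr (NNReal.coe_nonneg ε), ENNReal.ofReal_coe_nnreal]

/-- `(2x)^a / x^b → 0` for `a < b`. -/
theorem pow_small {a b : ℝ} (hab : a < b) :
    Tendsto (fun x : ℝ => (2 * x) ^ a / x ^ b) atTop (𝓝 0) := by
  have h1 : Tendsto (fun x : ℝ => 2 ^ a * x ^ (-(b - a))) atTop (𝓝 (2 ^ a * 0)) :=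
    (tendsto_rpow_neg_atTop (by linarith)).const_mul _
  rw [mul_zero] at h1
  refine h1.congr' ?_
  filter_upwards [eventually_gt_atTop 0] with x hx
  rw [Real.mul_rpow (by norm_num) hx.le, mul_div_assoc, ← Real.rpow_sub hx]
  congr 2
  ring

theorem log_two_ratio : Tendsto (fun x : ℝ => Real.log x / Real.log (2 * x)) atTop (𝓝 1) := by
  have h := (log_ratio 2 (by norm_num) 1).inv₀ one_ne_zero
  simp only [Real.rpow_one, inv_one] at h
  refine h.congr fun x => ?_
  rw [inv_div]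

/-- A uniform lower bound at the exponent `a` gives one for all longer intervals. -/
theorem low_all {p : ℕ → ℝ} (hpt : Tendsto p atTop atTop) {a b l : ℝ} (ha : 0 ≤ a) (hab : a < b)
    (hb : b ≤ 1) (hl : 0 ≤ l)
    (hev : ∀ᶠ x in atTop, l * (x ^ a / Real.log x) ≤ cnt p x (x ^ a)) {ε : ℝ} (hε : 0 < ε) :
    ∀ᶠ x in atTop, ∀ H, x ^ b ≤ H → H ≤ x → (l - ε) * (H / Real.log x) ≤ cnt p x H := by
  obtain ⟨X₀, hX₀⟩ := eventually_atTop.1 hev
  have h1 : Tendsto (fun x : ℝ => l * ((1 - (2 * x) ^ a / x ^ b) *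
      (Real.log x / Real.log (2 * x)))) atTop (𝓝 (l * ((1 - 0) * 1))) :=
    (((pow_small hab).const_sub 1).mul log_two_ratio).const_mul l
  have e1 : l * ((1 - 0) * 1) = l := by ring
  rw [e1] at h1
  filter_upwards [h1.eventually_const_le (by linarith : l - ε < l), eventually_ge_atTop X₀,
    eventually_ge_atTop 2] with x hx1 hx2 hx3 H hH1 hH2
  have hxb : 0 < x ^ b := Real.rpow_pos_of_pos (by linarith) _
  have hH : 0 < H := by linarith
  have hlog : 0 < Real.log x := Real.log_pos (by linarith)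
  have hlog2 : 0 < Real.log (2 * x) := Real.log_pos (by linarith)
  refine le_trans ?_ (low_unif hpt ha (by linarith) hl hx3 (fun y hy => hX₀ y (hx2.trans hy))
    hH.le hH2)
  have h2 : (l - ε) * (H / Real.log x) ≤ l * ((1 - (2 * x) ^ a / x ^ b) *
      (Real.log x / Real.log (2 * x))) * (H / Real.log x) :=
    mul_le_mul_of_nonneg_right hx1 (by positivity)
  refine h2.trans ?_
  have e2 : l * ((1 - (2 * x) ^ a / x ^ b) * (Real.log x / Real.log (2 * x))) *
      (H / Real.log x) = l * ((H - (2 * x) ^ a * (H / x ^ b)) / Real.log (2 * x)) := by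
    field_simp
  rw [e2]
  apply mul_le_mul_of_nonneg_left _ hl
  apply div_le_div_of_nonneg_right _ hlog2.le
  have h3 : 1 ≤ H / x ^ b := by rwa [le_div_iff₀ hxb, one_mul]
  have h4 : 0 ≤ (2 * x) ^ a := Real.rpow_nonneg (by linarith) _
  nlinarith

theorem up_all {p : ℕ → ℝ} (hpt : Tendsto p atTop atTop) {a b u : ℝ} (ha : 0 ≤ a) (hab : a < b)
    (hb : b ≤ 1) (hu : 0 ≤ u)
    (hev : ∀ᶠ x in atTop, cnt p x (x ^ a) ≤ u * (x ^ a / Real.log x)) {ε : ℝ} (hε : 0 < ε) :
    ∀ᶠ x in atTop, ∀ H, x ^ b ≤ H → H ≤ x → cnt p x H ≤ (u + ε) * (H / Real.log x) := by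
  obtain ⟨X₀, hX₀⟩ := eventually_atTop.1 hev
  have h1 : Tendsto (fun x : ℝ => u * (1 + (2 * x) ^ a / x ^ b)) atTop (𝓝 (u * (1 + 0))) :=
    ((pow_small hab).const_add 1).const_mul u
  have e1 : u * (1 + 0) = u := by ring
  rw [e1] at h1
  filter_upwards [h1.eventually_le_const (by linarith : u < u + ε), eventually_ge_atTop X₀,
    eventually_ge_atTop 2] with x hx1 hx2 hx3 H hH1 hH2
  have hxb : 0 < x ^ b := Real.rpow_pos_of_pos (by linarith) _
  have hH : 0 < H := by linarith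
  have hlog : 0 < Real.log x := Real.log_pos (by linarith)
  refine (up_unif hpt ha (by linarith) hu hx3 (fun y hy => hX₀ y (hx2.trans hy)) hH.le hH2).trans ?_
  have h2 : u * (1 + (2 * x) ^ a / x ^ b) * (H / Real.log x) ≤ (u + ε) * (H / Real.log x) :=
    mul_le_mul_of_nonneg_right hx1 (by positivity)
  refine le_trans ?_ h2
  have e2 : u * (1 + (2 * x) ^ a / x ^ b) * (H / Real.log x) =
      u * ((H + (2 * x) ^ a * (H / x ^ b)) / Real.log x) := by
    field_simp
  rw [e2]
  apply mul_le_mul_of_nonneg_left _ hu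
  apply div_le_div_of_nonneg_right _ hlog.le
  have h3 : 1 ≤ H / x ^ b := by rwa [le_div_iff₀ hxb, one_mul]
  have h4 : 0 ≤ (2 * x) ^ a := Real.rpow_nonneg (by linarith) _
  nlinarith

theorem pow_le_id {b : ℝ} (hb : b ≤ 1) {x : ℝ} (hx : 1 ≤ x) : x ^ b ≤ x := by
  calc x ^ b ≤ x ^ (1 : ℝ) := Real.rpow_le_rpow_of_exponent_le hx hb
    _ = x := Real.rpow_one _

/-- Monotonicity of the lower function. -/
theorem low_mono {p : ℕ → ℝ} (hpt : Tendsto p atTop atTop) {a b : ℝ} (ha : 0 ≤ a) (hab : a ≤ b)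
    (hb : b ≤ 1) : liminf (pR p a) atTop ≤ liminf (pR p b) atTop := by
  rcases eq_or_lt_of_le hab with rfl | hab
  · exact le_rfl
  apply le_of_forall_lt
  intro c hc
  obtain ⟨r, hr1, hr2⟩ := ENNReal.lt_iff_exists_nnreal_btwn.1 hc
  refine lt_of_lt_of_le hr1 ?_
  have h1 : ENNReal.ofReal (r : ℝ) ≤ liminf (pR p b) atTop := by
    apply liminf_ge
    intro ε hε
    filter_upwards [low_all hpt ha hab hb (NNReal.coe_nonneg r) (ev_low hr2) hε,
      eventually_ge_atTop 1] with x hx hx1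
    exact hx _ le_rfl (pow_le_id hb hx1)
  rwa [ENNReal.ofReal_coe_nnreal] at h1

theorem up_anti {p : ℕ → ℝ} (hpt : Tendsto p atTop atTop) {a b : ℝ} (ha : 0 ≤ a) (hab : a ≤ b)
    (hb : b ≤ 1) : limsup (pR p b) atTop ≤ limsup (pR p a) atTop := by
  rcases eq_or_lt_of_le hab with rfl | hab
  · exact le_rfl
  apply le_of_forall_gt
  intro c hc
  obtain ⟨r, hr1, hr2⟩ := ENNReal.lt_iff_exists_nnreal_btwn.1 hc
  refine lt_of_le_of_lt ?_ hr2
  rw [← ENNReal.ofReal_coe_nnreal]
  apply limsup_le (NNReal.coe_nonneg r)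
  intro ε hε
  filter_upwards [up_all hpt ha hab hb (NNReal.coe_nonneg r) (ev_up hr1) hε,
    eventually_ge_atTop 1] with x hx hx1
  exact hx _ le_rfl (pow_le_id hb hx1)

end Pool.Agent.H204.SI
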