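import Pool.Agent.H521.G.Maier1

open MeasureTheory Set Filter Topology
open scoped ENNReal NNReal ComplexConjugate

namespace Pool.Agent.H204.SI

open Pool.Agent.H521 Pool.Agent.H521.G

/-- Schedules with windows of length up to a power `1 / 2` of their position. -/
theorem exists_sched2 {f : ℝ → ℝ} {x₀ : ℝ} (hR : RDens f x₀) {g : ℕ → ℝ → ℝ} {ls : ℕ → ℝ}
    (hg : ∀ k x, x₀ ≤ x → 0 ≤ g k x) (hls : ∀ k, 0 ≤ ls k) {P : ℕ → ℝ → Prop}
    (hP : ∀ k, ∀ᶠ x in atTop, P k x)
    (hP1 : ∀ k x, P k x → (1 + ls k) * g k x ≤ ((k : ℝ) + 2) * x ^ (1 / 2 : ℝ))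
    (hP2 : ∀ k x, P k x → (2 : ℝ) ^ k ≤ x) :
    ∃ S : Sch f x₀, (∀ k, P k (phi f x₀ (S.A k))) ∧
      (∀ k, phi f x₀ (S.E k) = phi f x₀ (S.A k) + g k (phi f x₀ (S.A k))) ∧
      (∀ k, S.r k = ⌊ls k * S.Wd k⌋₊) ∧
      (∀ k, 4 * phi f x₀ (S.E k) ≤ phi f x₀ (S.A (k + 1))) ∧ ∀ k, S.Wd k ≤ g k (phi f x₀ (S.A k)) := by
  have hR' : ∀ k, ∃ R : ℝ, ∀ x, R ≤ x → P k x := fun k => eventually_atTop.1 (hP k)
  choose R hRP using hR'
  have hW0 : ∀ k, 0 ≤ sW f x₀ g R k := by
    intro k
    unfold sW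
    have h1 := hg k _ (hR.phi_ge (sA f x₀ g R k))
    have h2 := hR.F_mono (hR.phi_ge (sA f x₀ g R k))
      (by linarith : phi f x₀ (sA f x₀ g R k) ≤
        phi f x₀ (sA f x₀ g R k) + g k (phi f x₀ (sA f x₀ g R k)))
    linarith
  have hT0 : ∀ k, 0 ≤ (stS f x₀ g R k).1 := fun k => by
    rw [st_sum]; exact Finset.sum_nonneg fun i _ => hW0 i
  have hA0 : ∀ k, 0 ≤ sA f x₀ g R k := fun k => by
    unfold sA; linarith [hT0 k, Nat.cast_nonneg (α := ℝ) (sJ f x₀ g R k)]
  have hAge : ∀ k, (sJ f x₀ g R k : ℝ) + 1 ≤ phi f x₀ (sA f x₀ g R k) := fun k => by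
    have h1 := hR.phi_ge_add (hA0 k)
    have h2 := hT0 k
    have h3 : sA f x₀ g R k = sJ f x₀ g R k + 1 + (stS f x₀ g R k).1 := rfl
    linarith [hR.dens.hx₀]
  have hmax : ∀ k, max (R k) (stS f x₀ g R k).2 ≤ sJ f x₀ g R k := fun k => Nat.le_ceil _
  have hPk : ∀ k, P k (phi f x₀ (sA f x₀ g R k)) := fun k => by
    apply hRP k
    have := (le_max_left _ _).trans (hmax k)
    linarith [hAge k]
  have hWg : ∀ k, sW f x₀ g R k ≤ g k (phi f x₀ (sA f x₀ g R k)) := fun k => by
    have h1 := hg k _ (hR.phi_ge (sA f x₀ g R k))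
    have := hR.F_sub_le (hR.phi_ge (sA f x₀ g R k))
      (by linarith : phi f x₀ (sA f x₀ g R k) ≤
        phi f x₀ (sA f x₀ g R k) + g k (phi f x₀ (sA f x₀ g R k)))
    unfold sW
    linarith
  have hJm : StrictMono (sJ f x₀ g R) := by
    apply strictMono_nat_of_lt_succ
    intro k
    have h1 := (le_max_right _ _).trans (hmax (k + 1))
    rw [st_succ2] at h1
    have h2 := hAge k
    have h3 := hg k _ (hR.phi_ge (sA f x₀ g R k))
    have h4 : (sJ f x₀ g R k : ℝ) < sJ f x₀ g R (k + 1) := by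
      have : (0 : ℝ) ≤ sJ f x₀ g R k := Nat.cast_nonneg _
      linarith
    exact_mod_cast h4
  let S : Sch f x₀ :=
    { J := sJ f x₀ g R
      Wd := sW f x₀ g R
      r := fun k => ⌊ls k * sW f x₀ g R k⌋₊
      Jm := hJm
      W0 := hW0
      rW := fun k h => by
        rcases lt_or_eq_of_le (hW0 k) with h1 | h1
        · exact h1
        · rw [← h1] at h
          simp at h
      hS := fun σ hσ => by
        set τ : ℝ := σ - 1 / 2 with hτ
        have hτ0 : 0 < τ := by linarith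
        set ρ : ℝ := (2 : ℝ) ^ (-τ) with hρ
        have hρ0 : 0 < ρ := Real.rpow_pos_of_pos (by norm_num) _
        have hρ1 : ρ < 1 := Real.rpow_lt_one_of_one_lt_of_neg (by norm_num) (by linarith)
        have hgeo : Summable fun k : ℕ => (2 : ℝ) ^ σ * (((k : ℝ) + 2) * ρ ^ k) := by
          apply Summable.mul_left
          have h1 : Summable fun k : ℕ => ((k : ℝ)) ^ 1 * ρ ^ k :=
            summable_pow_mul_geometric_of_norm_lt_one 1 (by
              rw [Real.norm_eq_abs, abs_of_pos hρ0]; exact hρ1)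
          have h2 : Summable fun k : ℕ => 2 * ρ ^ k :=
            (summable_geometric_of_lt_one hρ0.le hρ1).mul_left 2
          refine (h1.add h2).congr fun k => ?_
          ring
        refine Summable.of_nonneg_of_le (fun k => ?_) (fun k => ?_) hgeo
        · exact mul_nonneg (add_nonneg (hW0 k) (Nat.cast_nonneg _))
            (Real.rpow_nonneg (hR.phi_pos _).le _)
        · rw [← st_sum]
          set x := phi f x₀ (sA f x₀ g R k) with hx
          set y := (sJ f x₀ g R k : ℝ) + (stS f x₀ g R k).1 with hy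
          have hy0 : 0 ≤ y := add_nonneg (Nat.cast_nonneg _) (hT0 k)
          have hAy : sA f x₀ g R k = y + 1 := by rw [hy]; unfold sA; ring
          have h1 := hR.phi_cell hy0
          have h2 := hR.hlog4 _ (hR.phi_ge y)
          have h3 : x / 2 ≤ phi f x₀ y := by
            rw [hx, hAy]; linarith
          have hx0 : 0 < x := hR.phi_pos _
          have hx1 : 1 ≤ x := hR.phi_one_le _
          have h4 : phi f x₀ y ^ (-σ) ≤ 2 ^ σ * x ^ (-σ) := by
            calc phi f x₀ y ^ (-σ) ≤ (x / 2) ^ (-σ) :=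
                  Real.rpow_le_rpow_of_nonpos (by positivity) h3 (by linarith)
              _ = 2 ^ σ * x ^ (-σ) := by
                  rw [Real.div_rpow hx0.le (by norm_num), Real.rpow_neg (by norm_num :
                    (0 : ℝ) ≤ 2), div_inv_eq_mul, mul_comm]
          have h5 : sW f x₀ g R k + ((⌊ls k * sW f x₀ g R k⌋₊ : ℕ) : ℝ) ≤
              ((k : ℝ) + 2) * x ^ (1 / 2 : ℝ) := by
            have h6 : ((⌊ls k * sW f x₀ g R k⌋₊ : ℕ) : ℝ) ≤ ls k * sW f x₀ g R k :=
              Nat.floor_le (mul_nonneg (hls k) (hW0 k))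
            have h7 := hP1 k _ (hPk k)
            have h8 := hWg k
            have h9 : (1 + ls k) * sW f x₀ g R k ≤ (1 + ls k) * g k x :=
              mul_le_mul_of_nonneg_left h8 (by linarith [hls k])
            linarith
          have h6 : x ^ (-τ) ≤ ρ ^ k := by
            have h7 := hP2 k _ (hPk k)
            calc x ^ (-τ) ≤ ((2 : ℝ) ^ k) ^ (-τ) :=
                  Real.rpow_le_rpow_of_nonpos (by positivity) h7 (by linarith)
              _ = _ := by
                  rw [hρ, ← Real.rpow_natCast, ← Real.rpow_natCast, ← Real.rpow_mul (by norm_num),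
                    ← Real.rpow_mul (by norm_num), mul_comm]
          have hxe : x ^ (1 / 2 : ℝ) * x ^ (-σ) = x ^ (-τ) := by
            rw [← Real.rpow_add hx0, hτ]
            congr 1
            ring
          calc _ ≤ (((k : ℝ) + 2) * x ^ (1 / 2 : ℝ)) * (2 ^ σ * x ^ (-σ)) :=
                mul_le_mul h5 h4 (Real.rpow_nonneg (hR.phi_pos _).le _) (by positivity)
            _ = 2 ^ σ * (((k : ℝ) + 2) * (x ^ (1 / 2 : ℝ) * x ^ (-σ))) := by ring
            _ = 2 ^ σ * (((k : ℝ) + 2) * x ^ (-τ)) := by rw [hxe]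
            _ ≤ _ := by
                apply mul_le_mul_of_nonneg_left _ (Real.rpow_nonneg (by norm_num) _)
                exact mul_le_mul_of_nonneg_left h6 (by positivity) }
  have hSA : ∀ k, S.A k = sA f x₀ g R k := fun k => by
    unfold sA
    rw [st_sum]
    rfl
  have hSE : ∀ k, phi f x₀ (S.E k) = phi f x₀ (S.A k) + g k (phi f x₀ (S.A k)) := fun k => by
    have h1 : S.E k = Fp f x₀ (phi f x₀ (sA f x₀ g R k) + g k (phi f x₀ (sA f x₀ g R k))) := by
      have h2 : S.E k = S.A k + sW f x₀ g R k := rfl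
      rw [h2, hSA]
      unfold sW
      rw [hR.F_phi (hA0 k)]
      ring
    rw [h1, hSA]
    apply hR.phi_F
    have := hg k _ (hR.phi_ge (sA f x₀ g R k))
    have := hR.phi_ge (sA f x₀ g R k)
    linarith
  refine ⟨S, fun k => by rw [hSA]; exact hPk k, hSE, fun k => rfl, fun k => ?_, fun k => ?_⟩
  · rw [hSE, hSA, hSA]
    have h1 := (le_max_right _ _).trans (hmax (k + 1))
    rw [st_succ2] at h1
    have h2 := hAge (k + 1)
    linarith
  · rw [hSA]
    exact hWg k

end Pool.Agent.H204.SI
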