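import Pool.Agent.H204.SI.Win

open MeasureTheory Set Filter Topology
open scoped ENNReal NNReal ComplexConjugate

namespace Pool.Agent.H204.SI

open Pool.Agent.H521 Pool.Agent.H521.G

/-- The prime number theorem in terms of the template, all exponents above `1 / 2`. -/
theorem pi_F2 {Z : Multiset ℂ} (hZ : ∀ ρ ∈ Z, ρ.re < 1) {x₀ : ℝ} (hR : RDens (fZ Z) x₀)
    {p : ℕ → ℝ}
    (hpnt : ∀ ε : ℝ, 0 < ε → ∃ C : ℝ, ∀ x : ℝ, 2 ≤ x →
        |(countPr p x : ℝ) - mainTerm Z x| ≤ C * x ^ (1 / 2 + ε)) {s : ℝ} (hs : 1 / 2 < s) :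
    ∃ C : ℝ, 0 ≤ C ∧ ∀ x : ℝ, x₀ ≤ x → |(countPr p x : ℝ) - Fp (fZ Z) x₀ x| ≤
      C * x ^ s := by
  obtain ⟨C, hC⟩ := hpnt (s - 1 / 2) (by linarith)
  have hx3 := hR.dens.hx₀
  set K : ℝ := (1 + (Multiset.card Z : ℝ)) with hK
  have hK0 : 0 ≤ K := by positivity
  refine ⟨|C| + |mainTerm Z x₀| + 2 * K, by positivity, fun x hx => ?_⟩
  have h2 := abs_main_diff_le hZ hx3 hx
  have h3 : mainTerm Z x = mainTerm Z x₀ + ∫ u in x₀..x, (1 - osc Z u) / Real.log u := by
    unfold mainTerm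
    exact (intervalIntegral.integral_add_adjacent_intervals
      (main_ii Z (by norm_num) (by linarith)) (main_ii Z (by linarith) hx)).symm
  have h4 := hC x (by linarith)
  have e : (1 / 2 + (s - 1 / 2) : ℝ) = s := by ring
  rw [e] at h4
  have hx1 : 1 ≤ x ^ s := Real.one_le_rpow (by linarith) (by linarith)
  have h5 : Real.log x ≤ 2 * x ^ s := by
    have h6 := Real.log_le_rpow_div (by linarith : 0 ≤ x) (by norm_num : (0 : ℝ) < 1 / 2)
    have h7 : x ^ (1 / 2 : ℝ) ≤ x ^ s :=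
      Real.rpow_le_rpow_of_exponent_le (by linarith) hs.le
    have h8 : x ^ (1 / 2 : ℝ) / (1 / 2) = 2 * x ^ (1 / 2 : ℝ) := by ring
    linarith
  have e1 : (countPr p x : ℝ) - Fp (fZ Z) x₀ x = ((countPr p x : ℝ) - mainTerm Z x) +
      mainTerm Z x₀ + ((∫ u in x₀..x, (1 - osc Z u) / Real.log u) - ∫ u in x₀..x, fZ Z u) := by
    rw [h3]; unfold Fp; ring
  rw [e1]
  refine (abs_add_le _ _).trans ?_
  have h6 := abs_add_le ((countPr p x : ℝ) - mainTerm Z x) (mainTerm Z x₀)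
  have h7 : C * x ^ s ≤ |C| * x ^ s :=
    mul_le_mul_of_nonneg_right (le_abs_self C) (by linarith)
  have h8 : |mainTerm Z x₀| ≤ |mainTerm Z x₀| * x ^ s :=
    le_mul_of_one_le_right (abs_nonneg _) hx1
  have h9 : K * Real.log x ≤ K * (2 * x ^ s) := mul_le_mul_of_nonneg_left h5 hK0
  nlinarith

/-- Above the exponent `1 / 2` the asymptotic formula holds. -/
theorem ratio_one {Z : Multiset ℂ} (hZ : ∀ ρ ∈ Z, ρ.re < 1) {p : ℕ → ℝ}
    (hpnt : ∀ ε : ℝ, 0 < ε → ∃ C : ℝ, ∀ x : ℝ, 2 ≤ x →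
        |(countPr p x : ℝ) - mainTerm Z x| ≤ C * x ^ (1 / 2 + ε)) {a : ℝ} (ha : 1 / 2 < a)
    (ha1 : a ≤ 1) {ε : ℝ} (hε : 0 < ε) :
    ∀ᶠ x in atTop, |cnt p x (x ^ a) - x ^ a / Real.log x| ≤ ε * (x ^ a / Real.log x) := by
  obtain ⟨x₀, hR⟩ := exists_RDens hZ
  set s : ℝ := (1 / 2 + a) / 2 with hs
  have hs1 : 1 / 2 < s := by rw [hs]; linarith
  have hsa : s < a := by rw [hs]; linarith
  obtain ⟨C, hC0, hC⟩ := pi_F2 hZ hR hpnt hs1
  have h1 : Tendsto (fun x : ℝ => (3 * C) * (Real.log x / x ^ (a - s))) atTop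
      (𝓝 (3 * C * 0)) :=
    ((isLittleO_log_rpow_atTop (by linarith)).tendsto_div_nhds_zero).const_mul _
  rw [mul_zero] at h1
  filter_upwards [transfer hZ hR (half_pos hε), h1.eventually_le_const (half_pos hε),
    eventually_gt_atTop 1] with x hx hx2 hx3
  obtain ⟨hx0, hx1⟩ := hx
  have hl : 0 < Real.log x := Real.log_pos hx3
  have hxa : 0 < x ^ a := Real.rpow_pos_of_pos (by linarith) _
  have hxa1 : x ^ a ≤ x := pow_le_id ha1 hx3.le
  have h2 := hx1 (x + x ^ a) (by linarith) (by linarith)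
  have h3 := hC x hx0
  have h4 := hC (x + x ^ a) (by linarith)
  have e1 : x + x ^ a - x = x ^ a := by ring
  rw [e1] at h2
  have h5 : (x + x ^ a) ^ s ≤ 2 * x ^ s := by
    calc (x + x ^ a) ^ s ≤ (2 * x) ^ s :=
          Real.rpow_le_rpow (by linarith) (by linarith) (by linarith)
      _ = 2 ^ s * x ^ s := Real.mul_rpow (by norm_num) (by linarith)
      _ ≤ 2 * x ^ s := by
        apply mul_le_mul_of_nonneg_right _ (Real.rpow_nonneg (by linarith) _)
        exact pow_le_id (by linarith) (by norm_num)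
  have h6 : C * (x + x ^ a) ^ s ≤ C * (2 * x ^ s) := mul_le_mul_of_nonneg_left h5 hC0
  have h7 : 3 * C * x ^ s ≤ ε / 2 * (x ^ a / Real.log x) := by
    have hx4 : 0 < x ^ (a - s) := Real.rpow_pos_of_pos (by linarith) _
    rw [mul_div_assoc', le_div_iff₀ hl]
    rw [mul_div_assoc', div_le_iff₀ hx4] at hx2
    have hxs : 0 < x ^ s := Real.rpow_pos_of_pos (by linarith) _
    have e2 : x ^ (a - s) * x ^ s = x ^ a := by
      rw [← Real.rpow_add (by linarith)]
      congr 1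
      ring
    calc 3 * C * x ^ s * Real.log x = (3 * C * Real.log x) * x ^ s := by ring
      _ ≤ (ε / 2 * x ^ (a - s)) * x ^ s := mul_le_mul_of_nonneg_right hx2 hxs.le
      _ = ε / 2 * x ^ a := by rw [mul_assoc, e2]
  set D := Fp (fZ Z) x₀ (x + x ^ a) - Fp (fZ Z) x₀ x with hD
  have h8 : |D - x ^ a / Real.log x| ≤ ε / 2 * (x ^ a / Real.log x) := by
    have e3 : D - x ^ a / Real.log x = (D * Real.log x - x ^ a) / Real.log x := by field_simp
    rw [e3, abs_div, abs_of_pos hl, mul_div_assoc']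
    exact div_le_div_of_nonneg_right h2 hl.le
  have e4 : cnt p x (x ^ a) - x ^ a / Real.log x =
      ((countPr p (x + x ^ a) : ℝ) - Fp (fZ Z) x₀ (x + x ^ a)) -
      ((countPr p x : ℝ) - Fp (fZ Z) x₀ x) + (D - x ^ a / Real.log x) := by
    unfold cnt
    rw [hD]
    ring
  rw [e4]
  have h9 := abs_add_le (((countPr p (x + x ^ a) : ℝ) - Fp (fZ Z) x₀ (x + x ^ a)) -
      ((countPr p x : ℝ) - Fp (fZ Z) x₀ x)) (D - x ^ a / Real.log x)
  have h10 := abs_sub ((countPr p (x + x ^ a) : ℝ) - Fp (fZ Z) x₀ (x + x ^ a))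
      ((countPr p x : ℝ) - Fp (fZ Z) x₀ x)
  linarith

theorem one_of_bounds {p : ℕ → ℝ} {a : ℝ}
    (h : ∀ ε : ℝ, 0 < ε → ∀ᶠ x in atTop, |cnt p x (x ^ a) - x ^ a / Real.log x| ≤
      ε * (x ^ a / Real.log x)) :
    liminf (pR p a) atTop = 1 ∧ limsup (pR p a) atTop = 1 := by
  have h1 : 1 ≤ liminf (pR p a) atTop := by
    have := liminf_ge (p := p) (a := a) (r := 1) fun ε hε => by
      filter_upwards [h ε hε] with x hx
      have := (abs_le.1 hx).1
      linarith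
    rwa [ENNReal.ofReal_one] at this
  have h2 : limsup (pR p a) atTop ≤ 1 := by
    have := limsup_le (p := p) (a := a) (r := 1) zero_le_one fun ε hε => by
      filter_upwards [h ε hε] with x hx
      have := (abs_le.1 hx).2
      linarith
    rwa [ENNReal.ofReal_one] at this
  have h3 : liminf (pR p a) atTop ≤ limsup (pR p a) atTop := liminf_le_limsup
  exact ⟨le_antisymm (h3.trans h2) h1, le_antisymm h2 (h1.trans h3)⟩

theorem low_le_one {Z : Multiset ℂ} (hZ : ∀ ρ ∈ Z, ρ.re < 1) {p : ℕ → ℝ}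
    (hpt : Tendsto p atTop atTop)
    (hpnt : ∀ ε : ℝ, 0 < ε → ∃ C : ℝ, ∀ x : ℝ, 2 ≤ x →
        |(countPr p x : ℝ) - mainTerm Z x| ≤ C * x ^ (1 / 2 + ε)) {a : ℝ} (ha : 0 ≤ a)
    (ha1 : a ≤ 1) :
    liminf (pR p a) atTop ≤ 1 := by
  have h1 := (one_of_bounds (p := p) (a := 1)
    fun ε hε => ratio_one hZ hpnt (by norm_num) le_rfl hε).1
  rw [← h1]
  exact low_mono hpt ha ha1 le_rfl

theorem one_le_up {Z : Multiset ℂ} (hZ : ∀ ρ ∈ Z, ρ.re < 1) {p : ℕ → ℝ}
    (hpt : Tendsto p atTop atTop)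
    (hpnt : ∀ ε : ℝ, 0 < ε → ∃ C : ℝ, ∀ x : ℝ, 2 ≤ x →
        |(countPr p x : ℝ) - mainTerm Z x| ≤ C * x ^ (1 / 2 + ε)) {a : ℝ} (ha : 0 ≤ a)
    (ha1 : a ≤ 1) :
    1 ≤ limsup (pR p a) atTop := by
  have h1 := (one_of_bounds (p := p) (a := 1)
    fun ε hε => ratio_one hZ hpnt (by norm_num) le_rfl hε).2
  rw [← h1]
  exact up_anti hpt ha ha1 le_rfl

/-- The uniform law in all intervals of length at least `x ^ e`. -/
def Unif (p : ℕ → ℝ) (e : ℝ) : Prop := ∀ δ : ℝ, 0 < δ → ∀ᶠ x in atTop, ∀ H, x ^ e ≤ H → H ≤ x →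
  |((countPr p (x + H) : ℝ) - countPr p x) * Real.log x / H - 1| ≤ δ

theorem unif_one {p : ℕ → ℝ} {a : ℝ} (ha1 : a ≤ 1) (h : Unif p a) :
    liminf (pR p a) atTop = 1 ∧ limsup (pR p a) atTop = 1 := by
  apply one_of_bounds
  intro ε hε
  filter_upwards [h ε hε, eventually_gt_atTop 1] with x hx hx1
  have hl := Real.log_pos hx1
  have hxa : 0 < x ^ a := Real.rpow_pos_of_pos (by linarith) _
  have h1 := hx (x ^ a) le_rfl (pow_le_id ha1 hx1.le)
  have e1 : cnt p x (x ^ a) - x ^ a / Real.log x =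
      (((countPr p (x + x ^ a) : ℝ) - countPr p x) * Real.log x / x ^ a - 1) *
        (x ^ a / Real.log x) := by
    unfold cnt
    field_simp
  rw [e1, abs_mul, abs_of_pos (T_pos (a := a) hx1)]
  exact mul_le_mul_of_nonneg_right h1 (T_pos hx1).le

theorem unif_iff {p : ℕ → ℝ} (hpt : Tendsto p atTop atTop) {e₀ : ℝ} (he : 0 ≤ e₀) :
    (∀ e, e₀ < e → e < 1 → Unif p e) ↔
    ∀ a, e₀ < a → a < 1 → liminf (pR p a) atTop = 1 ∧ limsup (pR p a) atTop = 1 := by
  constructor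
  · intro h a ha ha1
    exact unif_one ha1.le (h a ha ha1)
  · intro h e he1 he2 δ hδ
    set a : ℝ := (e₀ + e) / 2 with ha
    have ha0 : e₀ < a := by rw [ha]; linarith
    have hae : a < e := by rw [ha]; linarith
    obtain ⟨hL, hU⟩ := h a ha0 (by linarith)
    set d : ℝ := min δ 1 / 2 with hd
    have hm : 0 < min δ 1 := lt_min hδ one_pos
    have hd0 : 0 < d := by rw [hd]; linarith
    have hd1 : d ≤ 1 / 2 := by rw [hd]; linarith [min_le_right δ 1]
    have hdδ : 2 * d ≤ δ := by rw [hd]; linarith [min_le_left δ 1]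
    set r : ℝ≥0 := ⟨1 - d, by linarith⟩ with hr
    set r' : ℝ≥0 := ⟨1 + d, by linarith⟩ with hr'
    have hrL : (r : ℝ≥0∞) < liminf (pR p a) atTop := by
      rw [hL]
      have : r < 1 := by
        rw [← NNReal.coe_lt_coe]
        change 1 - d < 1
        linarith
      exact_mod_cast this
    have hrU : limsup (pR p a) atTop < (r' : ℝ≥0∞) := by
      rw [hU]
      have : 1 < r' := by
        rw [← NNReal.coe_lt_coe]
        change (1 : ℝ) < 1 + d
        linarith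
      exact_mod_cast this
    have h1 := low_all hpt (by linarith : 0 ≤ a) hae he2.le (NNReal.coe_nonneg r) (ev_low hrL) hd0
    have h2 := up_all hpt (by linarith : 0 ≤ a) hae he2.le (NNReal.coe_nonneg r') (ev_up hrU) hd0
    filter_upwards [h1, h2, eventually_gt_atTop 1] with x hx1 hx2 hx3 H hH1 hH2
    have hl := Real.log_pos hx3
    have hxe : 0 < x ^ e := Real.rpow_pos_of_pos (by linarith) _
    have hH : 0 < H := by linarith
    have a1 := hx1 H hH1 hH2
    have a2 := hx2 H hH1 hH2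
    have hT : 0 < H / Real.log x := by positivity
    have e1 : ((countPr p (x + H) : ℝ) - countPr p x) * Real.log x / H =
        cnt p x H / (H / Real.log x) := by
      unfold cnt
      field_simp
    have b1 : (r : ℝ) - d ≤ cnt p x H / (H / Real.log x) := by rwa [le_div_iff₀ hT]
    have b2 : cnt p x H / (H / Real.log x) ≤ (r' : ℝ) + d := by rwa [div_le_iff₀ hT]
    have c1 : (r : ℝ) = 1 - d := rfl
    have c2 : (r' : ℝ) = 1 + d := rfl
    rw [e1, abs_le]
    constructor <;> linarith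

end Pool.Agent.H204.SI
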