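import Pool.Agent.H521.G.Maier7
import Pool.Agent.H204.SI.Sched2
import Pool.Agent.H204.SI.Upper

open MeasureTheory Set Filter Topology
open scoped ENNReal NNReal ComplexConjugate

namespace Pool.Agent.H204.SI

open Pool.Agent.H521 Pool.Agent.H521.G

/-- the set of exponents -/
def PE : Set ℝ := Ioc 0 (1 / 2)

theorem exists_expo2 {L U : ℝ → ℝ≥0∞} (hL : MonotoneOn L PE) (hU : AntitoneOn U PE) :
    ∃ Q : ℕ → ℝ, (∀ i, Q i ∈ PE) ∧ ∀ f, f = L ∨ f = U → ∀ b ∈ PE, ∀ O ∈ 𝓝 (f b),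
      (∃ i, Q i ≤ b ∧ f (Q i) ∈ O) ∧ ∃ i, b ≤ Q i ∧ f (Q i) ∈ O := by
  set D : Set ℝ := (((range ((↑) : ℚ → ℝ)) ∩ PE) ∪ ({x ∈ PE | ¬ContinuousWithinAt L PE x} ∪
    {x ∈ PE | ¬ContinuousWithinAt U PE x})) ∪ {1 / 2} with hD
  have hhalf : (1 / 2 : ℝ) ∈ PE := ⟨by norm_num, le_rfl⟩
  have hDc : D.Countable := (((countable_range _).mono inter_subset_left).union
    (hL.countable_not_continuousWithinAt.union hU.countable_not_continuousWithinAt)).union
      (countable_singleton _)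
  have hDne : D.Nonempty := ⟨1 / 2, Or.inr rfl⟩
  obtain ⟨Q, hQ⟩ := hDc.exists_eq_range hDne
  have hmem : ∀ x ∈ D, ∃ i, Q i = x := fun x hx => by rw [hQ] at hx; exact hx
  refine ⟨Q, fun i => ?_, fun f hf b hb O hO => ?_⟩
  · have : Q i ∈ D := by rw [hQ]; exact ⟨i, rfl⟩
    rcases this with (h | h | h) | h
    · exact h.2
    · exact h.1
    · exact h.1
    · rw [mem_singleton_iff.1 h]; exact hhalf
  · by_cases hc : ContinuousWithinAt f PE b
    · have hev : ∀ᶠ x in 𝓝[PE] b, f x ∈ O := hc.eventually hO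
      rw [eventually_nhdsWithin_iff] at hev
      obtain ⟨δ, hδ, hball⟩ := Metric.eventually_nhds_iff.1 hev
      constructor
      · obtain ⟨r, hr1, hr2⟩ := exists_rat_btwn (max_lt (by linarith : b - δ < b) hb.1)
        have hr3 := lt_of_le_of_lt (le_max_left _ _) hr1
        have hr4 := lt_of_le_of_lt (le_max_right _ _) hr1
        have hrP : (r : ℝ) ∈ PE := ⟨hr4, by linarith [hb.2]⟩
        have hO' := hball (y := (r : ℝ)) (by rw [Real.dist_eq, abs_lt]; constructor <;> linarith) hrP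
        obtain ⟨i, hi⟩ := hmem r (Or.inl (Or.inl ⟨⟨r, rfl⟩, hrP⟩))
        exact ⟨i, by rw [hi]; exact hr2.le, by rw [hi]; exact hO'⟩
      · rcases eq_or_lt_of_le hb.2 with hb2 | hb2
        · obtain ⟨i, hi⟩ := hmem (1 / 2) (Or.inr rfl)
          refine ⟨i, by rw [hi, hb2], ?_⟩
          rw [hi, ← hb2]
          exact mem_of_mem_nhds hO
        · obtain ⟨r, hr1, hr2⟩ := exists_rat_btwn (lt_min (by linarith : b < b + δ) hb2)
          have hr3 := lt_of_lt_of_le hr2 (min_le_left _ _)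
          have hr4 := lt_of_lt_of_le hr2 (min_le_right _ _)
          have hrP : (r : ℝ) ∈ PE := ⟨by linarith [hb.1], hr4.le⟩
          have hO' := hball (y := (r : ℝ))
            (by rw [Real.dist_eq, abs_lt]; constructor <;> linarith) hrP
          obtain ⟨i, hi⟩ := hmem r (Or.inl (Or.inl ⟨⟨r, rfl⟩, hrP⟩))
          exact ⟨i, by rw [hi]; exact hr1.le, by rw [hi]; exact hO'⟩
    · have hbD : b ∈ D := by
        rcases hf with rfl | rfl
        · exact Or.inl (Or.inr (Or.inl ⟨hb, hc⟩))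
        · exact Or.inl (Or.inr (Or.inr ⟨hb, hc⟩))
      obtain ⟨i, hi⟩ := hmem b hbD
      exact ⟨⟨i, hi.le, by rw [hi]; exact mem_of_mem_nhds hO⟩,
        ⟨i, hi.ge, by rw [hi]; exact mem_of_mem_nhds hO⟩⟩

section tasks

variable (L U : ℝ → ℝ≥0∞) (Q : ℕ → ℝ)

/-- exponent of task `k` -/
noncomputable def uq (k : ℕ) : ℝ := Q (Nat.unpair k).1

/-- density of task `k` -/
noncomputable def ul (k : ℕ) : ℝ :=
  if (Nat.unpair k).2 % 2 = 0 then (min (U (Q (Nat.unpair k).1)) ((k : ℝ≥0∞) + 1)).toReal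
  else (L (Q (Nat.unpair k).1)).toReal

theorem ul_nonneg (k : ℕ) : 0 ≤ ul L U Q k := by
  unfold ul
  split_ifs
  · exact ENNReal.toReal_nonneg
  · exact ENNReal.toReal_nonneg

theorem ul_le {L : ℝ → ℝ≥0∞} (hL : ∀ i, L (Q i) ≤ 1) (k : ℕ) : ul L U Q k ≤ k + 1 := by
  have hk : (0 : ℝ) ≤ k := Nat.cast_nonneg k
  unfold ul
  split_ifs
  · exact min_toReal_le _ _
  · have := ENNReal.toReal_mono (by simp) (hL (Nat.unpair k).1)
    simp only [ENNReal.toReal_one] at this
    linarith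

end tasks

/-- the readiness predicate -/
def PP (q ls Q : ℕ → ℝ) (k : ℕ) (x : ℝ) : Prop :=
  (1 + ls k) * x ^ q k ≤ ((k : ℝ) + 2) * x ^ (1 / 2 : ℝ) ∧ (2 : ℝ) ^ k ≤ x ∧
  (∀ i ≤ k, q k < Q i → ((k : ℝ) + 1) ^ 3 * x ^ q k ≤ x ^ Q i)

theorem PP_ev {q ls Q : ℕ → ℝ} (hq : ∀ k, q k ≤ 1 / 2) (hls : ∀ k, 0 ≤ ls k)
    (hls1 : ∀ k : ℕ, ls k ≤ k + 1) (k : ℕ) : ∀ᶠ x in atTop, PP q ls Q k x := by
  have h2 : ∀ᶠ x : ℝ in atTop, ∀ i ≤ k, q k < Q i →
      ((k : ℝ) + 1) ^ 3 * x ^ q k ≤ x ^ Q i := by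
    have : ∀ᶠ x : ℝ in atTop, ∀ i ∈ Iic k, q k < Q i →
        ((k : ℝ) + 1) ^ 3 * x ^ q k ≤ x ^ Q i := by
      rw [Filter.eventually_all_finite (finite_Iic k)]
      intro i _
      by_cases h : q k < Q i
      · filter_upwards [(tendsto_rpow_atTop (by linarith : 0 < Q i - q k)).eventually_ge_atTop
          (((k : ℝ) + 1) ^ 3), eventually_gt_atTop 1] with x hx hx1 _
        have e : x ^ Q i = x ^ (Q i - q k) * x ^ q k := by
          rw [← Real.rpow_add (by linarith)]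
          congr 1
          ring
        rw [e]
        exact mul_le_mul_of_nonneg_right hx (Real.rpow_nonneg (by linarith) _)
      · exact Eventually.of_forall fun x hx => absurd hx h
    exact this
  filter_upwards [h2, eventually_ge_atTop ((2 : ℝ) ^ k), eventually_ge_atTop 1] with x a2 a3 a1
  refine ⟨?_, a3, a2⟩
  apply mul_le_mul _ (Real.rpow_le_rpow_of_exponent_le a1 (hq k))
    (Real.rpow_nonneg (by linarith) _) (by positivity)
  linarith [hls1 k]

/-- the sequence of the tasks of a given type -/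
theorem tasks2_tendsto (i τ : ℕ) : Tendsto (fun t : ℕ => Nat.pair i (2 * t + τ)) atTop atTop := by
  apply tendsto_atTop_mono _ tendsto_id
  intro t
  have := Nat.right_le_pair i (2 * t + τ)
  simp only [id]
  omega

/-- **Existence of systems with prescribed lower and upper densities at all powers.** -/
theorem suff {Z : Multiset ℂ} (hZ : ∀ ρ ∈ Z, ρ.re < 1) (hZc : Z.map conj = Z)
    {L U : ℝ → ℝ≥0∞} (hL : MonotoneOn L PE) (hU : AntitoneOn U PE)
    (hL1 : ∀ a ∈ PE, L a ≤ 1) (hU1 : ∀ a ∈ PE, 1 ≤ U a) :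
    ∃ p : ℕ → ℝ, Sys Z p ∧
      ∀ a ∈ PE, liminf (pR p a) atTop = L a ∧ limsup (pR p a) atTop = U a := by
  obtain ⟨x₀, hR⟩ := exists_RDens hZ
  obtain ⟨Q, hQS, hQ⟩ := exists_expo2 hL hU
  set q : ℕ → ℝ := uq Q with hqd
  set ls : ℕ → ℝ := ul L U Q with hlsd
  have hq0 : ∀ k, 0 < q k := fun k => (hQS _).1
  have hq1 : ∀ k, q k ≤ 1 / 2 := fun k => (hQS _).2
  have hls0 : ∀ k, 0 ≤ ls k := ul_nonneg L U Q
  have hls1 : ∀ k : ℕ, ls k ≤ k + 1 := ul_le U Q fun i => hL1 _ (hQS i)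
  obtain ⟨S, hP, hE, hr, h4, hWg⟩ := exists_sched2 hR (g := fun k x => x ^ q k)
    (ls := ls) (fun k x hx => Real.rpow_nonneg (by linarith [hR.dens.hx₀]) _)
    hls0 (P := PP q ls Q) (PP_ev hq1 hls0 hls1) (fun k x h => h.1) (fun k x h => h.2.1)
  obtain ⟨V, hV, hSys⟩ := S.toW.system hR hZ hZc rfl
  let C : PC Z x₀ :=
    { hZ := hZ, hR := hR, S := S, V := V, hV := hV, q := q, ls := ls, Q := Q, hq0 := hq0
      hq1 := hq1, hls0 := hls0, hls1 := hls1, hE := hE, hr := hr, h4 := h4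
      hPb := fun k => (hP k).2.1, hPd := fun k => (hP k).2.2 }
  have hSys' : Sys Z C.p := hSys
  -- types of tasks
  have hty0 : ∀ i t, uq Q (Nat.pair i (2 * t + 0)) = Q i ∧
      ul L U Q (Nat.pair i (2 * t + 0)) =
        (min (U (Q i)) (((Nat.pair i (2 * t + 0) : ℕ) : ℝ≥0∞) + 1)).toReal := by
    intro i t
    unfold uq ul
    rw [Nat.unpair_pair]
    have : (2 * t + 0) % 2 = 0 := by omega
    simp only [this]
    simp
  have hty1 : ∀ i t, uq Q (Nat.pair i (2 * t + 1)) = Q i ∧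
      ul L U Q (Nat.pair i (2 * t + 1)) = (L (Q i)).toReal := by
    intro i t
    unfold uq ul
    rw [Nat.unpair_pair]
    have : (2 * t + 1) % 2 = 1 := by omega
    simp only [this]
    simp
  -- properties of the densities
  have hUp : ∀ i, U (Q i) ≠ ∞ → ∀ k, Q i ≤ q k → ls k ≤ (U (Q i)).toReal := by
    intro i hi k hk
    have hone : 1 ≤ (U (Q i)).toReal := by
      have := ENNReal.toReal_mono hi (hU1 _ (hQS i))
      simpa using this
    rw [hlsd]
    unfold ul
    split_ifs with h1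
    · refine ENNReal.toReal_mono hi ((min_le_left _ _).trans ?_)
      exact hU (hQS i) (hQS _) hk
    · have := ENNReal.toReal_mono (by simp) (hL1 _ (hQS (Nat.unpair k).1))
      simp only [ENNReal.toReal_one] at this
      linarith
  have hLow : ∀ i, ∀ k, Q i ≤ q k → (L (Q i)).toReal ≤ ls k := by
    intro i k hk
    have hLi : (L (Q i)).toReal ≤ 1 := by
      have := ENNReal.toReal_mono (by simp) (hL1 _ (hQS i))
      simpa using this
    rw [hlsd]
    unfold ul
    split_ifs with h0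
    · exact hLi.trans (one_le_min (hU1 _ (hQS _)) k)
    · apply ENNReal.toReal_mono
      · exact (lt_of_le_of_lt (hL1 _ (hQS _)) (by simp)).ne
      · exact hL (hQS i) (hQS _) hk
  refine ⟨C.p, hSys', fun a ha => ?_⟩
  have ha0 : 0 < a := ha.1
  have ha1 : a ≤ 1 := by linarith [ha.2]
  refine ⟨le_antisymm ?_ ?_, le_antisymm ?_ ?_⟩
  · -- liminf ≤ L a
    apply le_of_forall_gt
    intro v hv
    obtain ⟨-, i, hi1, hi2⟩ := hQ L (Or.inl rfl) a ha (Iio v) (Iio_mem_nhds hv)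
    obtain ⟨r, hr1, hr2⟩ := ENNReal.lt_iff_exists_nnreal_btwn.1 (mem_Iio.1 hi2)
    obtain ⟨r', hr3, hr4⟩ := ENNReal.lt_iff_exists_nnreal_btwn.1 hr2
    refine lt_of_le_of_lt ?_ hr4
    have hrr : (r : ℝ) < r' := by exact_mod_cast hr3
    have hr0 : (0 : ℝ) ≤ r := NNReal.coe_nonneg r
    set ε : ℝ := (r' - r) / (1 + r) with hε
    have hε0 : 0 < ε := div_pos (by linarith) (by linarith)
    have hat := C.at_X ha0 ha1 hε0
    have hfr : ∃ᶠ x in atTop, pR C.p a x ≤ (r' : ℝ≥0∞) := by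
      have h1 : ∀ᶠ t in atTop, pR C.p a (C.X (Nat.pair i (2 * t + 1))) ≤ (r' : ℝ≥0∞) := by
        filter_upwards [(tasks2_tendsto i 1).eventually hat] with t ht1
        obtain ⟨e1, e3⟩ := hty1 i t
        set k := Nat.pair i (2 * t + 1) with hk
        have h2 := ht1 (by change a ≤ uq Q k; rw [e1]; exact hi1)
        have hlsk : C.ls k ≤ r := by
          change ul L U Q k ≤ r
          rw [e3]
          have := ENNReal.toReal_mono (by simp) hr1.le
          simpa using this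
        have hT0 : 0 < C.X k ^ a / Real.log (C.X k) := T_pos (C.one_lt_X k)
        have h3 := (abs_le.1 h2).2
        rw [← ENNReal.ofReal_coe_nnreal]
        unfold pR
        apply ENNReal.ofReal_le_ofReal
        rw [div_le_iff₀ hT0]
        change cnt C.p (C.X k) (C.X k ^ a) ≤ _
        have h4 : ε * (1 + C.ls k) ≤ r' - r := by
          have : ε * (1 + C.ls k) ≤ ε * (1 + r) :=
            mul_le_mul_of_nonneg_left (by linarith) hε0.le
          rw [hε, div_mul_cancel₀ _ (by linarith : (1 + (r : ℝ)) ≠ 0)] at this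
          exact this
        have h5 : ε * (1 + C.ls k) * (C.X k ^ a / Real.log (C.X k)) ≤
            (r' - r) * (C.X k ^ a / Real.log (C.X k)) := mul_le_mul_of_nonneg_right h4 hT0.le
        have h6 : C.ls k * (C.X k ^ a / Real.log (C.X k)) ≤
            r * (C.X k ^ a / Real.log (C.X k)) :=
          mul_le_mul_of_nonneg_right hlsk hT0.le
        linarith
      exact (C.X_tendsto.comp (tasks2_tendsto i 1)).frequently
        (p := fun x => pR C.p a x ≤ (r' : ℝ≥0∞)) h1.frequently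
    exact liminf_le_of_frequently_le' hfr
  · -- L a ≤ liminf
    apply le_of_forall_lt
    intro v hv
    obtain ⟨⟨i, hi1, hi2⟩, -⟩ := hQ L (Or.inl rfl) a ha (Ioi v) (Ioi_mem_nhds hv)
    have hfin : L (Q i) ≠ ∞ := (lt_of_le_of_lt (hL1 _ (hQS i)) (by simp)).ne
    have hle1 : (L (Q i)).toReal ≤ 1 := by
      have := ENNReal.toReal_mono (by simp) (hL1 _ (hQS i))
      simpa using this
    have h1 : ENNReal.ofReal (L (Q i)).toReal ≤ liminf (pR C.p a) atTop :=
      liminf_ge fun ε hε => C.low_bd (hQS i).1 hi1 ha1 rfl ENNReal.toReal_nonneg hle1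
        (fun k hk => hLow i k hk) hε
    rw [ENNReal.ofReal_toReal hfin] at h1
    exact lt_of_lt_of_le hi2 h1
  · -- limsup ≤ U a
    apply le_of_forall_gt
    intro v hv
    obtain ⟨⟨i, hi1, hi2⟩, -⟩ := hQ U (Or.inr rfl) a ha (Iio v) (Iio_mem_nhds hv)
    have hfin : U (Q i) ≠ ∞ := (lt_of_lt_of_le (mem_Iio.1 hi2) le_top).ne
    have hone : 1 ≤ (U (Q i)).toReal := by
      have := ENNReal.toReal_mono hfin (hU1 _ (hQS i))
      simpa using this
    have h1 : limsup (pR C.p a) atTop ≤ ENNReal.ofReal (U (Q i)).toReal :=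
      limsup_le (by linarith) fun ε hε => C.up_bd (hQS i).1 hi1 ha1 rfl hone
        (fun k hk => hUp i hfin k hk) hε
    rw [ENNReal.ofReal_toReal hfin] at h1
    exact lt_of_le_of_lt h1 hi2
  · -- U a ≤ limsup
    apply le_of_forall_lt
    intro v hv
    obtain ⟨-, i, hi1, hi2⟩ := hQ U (Or.inr rfl) a ha (Ioi v) (Ioi_mem_nhds hv)
    obtain ⟨r, hr1, hr2⟩ := ENNReal.lt_iff_exists_nnreal_btwn.1 (mem_Ioi.1 hi2)
    obtain ⟨r', hr3, hr4⟩ := ENNReal.lt_iff_exists_nnreal_btwn.1 hr1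
    refine lt_of_lt_of_le hr3 ?_
    have hrr : (r' : ℝ) < r := by exact_mod_cast hr4
    have hr0 : (0 : ℝ) ≤ r := NNReal.coe_nonneg r
    have hr'0 : (0 : ℝ) ≤ r' := NNReal.coe_nonneg r'
    set ε : ℝ := (r - r') / (1 + r) with hε
    have hε0 : 0 < ε := div_pos (by linarith) (by linarith)
    have hε1 : ε ≤ 1 := by rw [hε, div_le_one (by linarith)]; linarith
    have hat := C.at_X ha0 ha1 hε0
    have hkr : ∀ᶠ k : ℕ in atTop, (r : ℝ) ≤ (k : ℝ) :=
      tendsto_natCast_atTop_atTop.eventually_ge_atTop _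
    have hfr : ∃ᶠ x in atTop, (r' : ℝ≥0∞) ≤ pR C.p a x := by
      have h1 : ∀ᶠ t in atTop, (r' : ℝ≥0∞) ≤ pR C.p a (C.X (Nat.pair i (2 * t + 0))) := by
        filter_upwards [(tasks2_tendsto i 0).eventually hat,
          (tasks2_tendsto i 0).eventually hkr] with t ht1 ht2
        obtain ⟨e1, e3⟩ := hty0 i t
        set k := Nat.pair i (2 * t + 0) with hk
        have h2 := ht1 (by change a ≤ uq Q k; rw [e1]; exact hi1)
        have hlsk : (r : ℝ) ≤ C.ls k := by
          change (r : ℝ) ≤ ul L U Q k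
          rw [e3]
          have h3 : (r : ℝ≥0∞) ≤ min (U (Q i)) ((k : ℝ≥0∞) + 1) := by
            apply le_min hr2.le
            have h4 : (r : ℝ≥0) ≤ (k : ℝ≥0) := by
              rw [← NNReal.coe_le_coe]; simpa using ht2
            calc (r : ℝ≥0∞) ≤ ((k : ℝ≥0) : ℝ≥0∞) := by exact_mod_cast h4
              _ = (k : ℝ≥0∞) := by simp
              _ ≤ _ := le_self_add
          have h4 := ENNReal.toReal_mono (min_ne_top' (U (Q i)) k) h3
          simpa using h4
        have hT0 : 0 < C.X k ^ a / Real.log (C.X k) := T_pos (C.one_lt_X k)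
        have h3 := (abs_le.1 h2).1
        rw [← ENNReal.ofReal_coe_nnreal]
        unfold pR
        apply ENNReal.ofReal_le_ofReal
        rw [le_div_iff₀ hT0]
        change _ ≤ cnt C.p (C.X k) (C.X k ^ a)
        have h4 : (r' : ℝ) ≤ C.ls k - ε * (1 + C.ls k) := by
          have h5 : (1 - ε) * r ≤ (1 - ε) * C.ls k :=
            mul_le_mul_of_nonneg_left hlsk (by linarith)
          have h6 : ε * (1 + r) = r - r' := by
            rw [hε, div_mul_cancel₀ _ (by linarith : (1 + (r : ℝ)) ≠ 0)]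
          nlinarith
        have h5 := mul_le_mul_of_nonneg_right h4 hT0.le
        nlinarith
      exact (C.X_tendsto.comp (tasks2_tendsto i 0)).frequently
        (p := fun x => (r' : ℝ≥0∞) ≤ pR C.p a x) h1.frequently
    exact le_limsup_of_frequently_le hfr (by isBoundedDefault)

end Pool.Agent.H204.SI
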